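import Pool.Agent.V11238.BR.Main

/-!
# Ranks on bounded Baire class 1 functions

Every rank with the properties (P1)-(P4) is essentially equal to the separation rank `α₁` on bounded functions of
Baire class 1; the restriction monotonicity (P5) is not needed.
-/

set_option autoImplicit false

open Set Filter Topology Pool.Agent.V11238.BR

namespace Pool.Agent.Results.MP_12cd8a_lc.Unique

variable {ρ : ∀ (X : Type) [TopologicalSpace X], (X → ℝ) → Ordinal.{0}}

theorem lip_affine (a b : ℝ) : LipschitzWith (Real.nnabs a) fun t : ℝ => a * t + b := by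
  apply LipschitzWith.of_dist_le_mul
  intro x y
  rw [Real.dist_eq, Real.dist_eq, Real.coe_nnabs, ← abs_mul]
  apply le_of_eq
  congr 1
  ring

theorem lip_clip : LipschitzWith 1 fun t : ℝ => max 0 (min 1 t) :=
  (LipschitzWith.id.const_min 1).const_max 0

/-- the lower bound -/
theorem lower (hρ : IsRank ρ) (X : Type) [TopologicalSpace X] [PolishSpace X] (f : X → ℝ)
    (hf : BddBaireOne f) : Below (fnRank f) (ρ X f) := by
  intro η h1 hη hle
  apply Ordinal.iSup_le
  rintro ⟨⟨p, q⟩, hpq⟩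
  by_contra hcon
  rw [not_le] at hcon
  have hne : (E {x | f x ≤ (p : ℝ)} {x | (q : ℝ) ≤ f x} (Ordinal.omega0 ^ η)).Nonempty := by
    rw [nonempty_iff_ne_empty]
    intro h
    exact absurd (sepRank_le h) (not_le.2 hcon)
  obtain ⟨x, hx⟩ := hne
  have hpq' : (p : ℝ) < q := by exact_mod_cast hpq
  obtain ⟨p', q', hp, hlt, hq, hx'⟩ : ∃ p' q' : ℝ, (p : ℝ) ≤ p' ∧ p' < q' ∧ q' ≤ q ∧
      (f x ≤ p' ∨ q' ≤ f x) := by
    rcases le_total (f x) (((p : ℝ) + q) / 2) with h | h
    · exact ⟨((p : ℝ) + q) / 2, q, by linarith, by linarith, le_rfl, Or.inl h⟩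
    · exact ⟨p, ((p : ℝ) + q) / 2, le_rfl, by linarith, by linarith, Or.inr h⟩
  set B : Set X := {x | f x ≤ p'} with hBdef
  set C : Set X := {x | q' ≤ f x} with hCdef
  have hx2 : x ∈ E B C (Ordinal.omega0 ^ η) :=
    E_mono (fun y hy => le_trans (show f y ≤ (p : ℝ) from hy) hp)
      (fun y hy => le_trans hq (show (q : ℝ) ≤ f y from hy)) _ hx
  let _ := TopologicalSpace.upgradeIsCompletelyMetrizable X
  obtain ⟨P, hP1, hP2, hP3, -, hP5⟩ := reflect B C _ (opow_lt hη) x hx2 hx' 1 one_pos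
  set A : Set X := B ∩ P with hAdef
  have hB : IsGδ B := hf.baire (Iic p') isClosed_Iic
  have hC : IsGδ C := hf.baire (Ici q') isClosed_Ici
  have hA : IsGδ A := hB.inter hP1.isGδ
  have hdisj : ∀ y, y ∈ B → y ∈ C → False := fun y hy1 hy2 => by
    have h3 : f y ≤ p' := hy1
    have h4 : q' ≤ f y := hy2
    linarith
  have hAc' : Aᶜ = Pᶜ ∪ C := by
    ext y
    constructor
    · intro hy
      by_cases hyP : y ∈ P
      · right
        rcases hP2 hyP with h | h
        · exact absurd ⟨h, hyP⟩ hy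
        · exact h
      · exact Or.inl hyP
    · rintro (hy | hy) hyA
      · exact hy hyA.2
      · exact hdisj y hyA.1 hy
  have hAc : IsGδ Aᶜ := by
    rw [hAc']
    exact hP1.isOpen_compl.isGδ.union hC
  have hE : (E A Aᶜ (Ordinal.omega0 ^ η)).Nonempty := by
    refine ⟨x, E_mono Subset.rfl ?_ _ hP5⟩
    rintro y ⟨hy, _⟩ hyA
    exact hdisj y hyA.1 hy
  have hlt' : Ordinal.omega0 ^ η < sepRank A Aᶜ := by
    by_contra hle'
    rw [not_lt] at hle'
    have := E_eq_empty_of_le (exists_empty hA hAc disjoint_compl_right) hle'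
    rw [this] at hE
    exact Set.not_nonempty_empty hE
  -- the rank of the characteristic function of `A`
  have hd : 0 < q' - p' := by linarith
  set g1 : ℝ → ℝ := fun t => (-(q' - p')⁻¹) * t + q' * (q' - p')⁻¹ with hg1
  have hg1v : ∀ t, g1 t = (q' - t) / (q' - p') := fun t => by
    rw [hg1, div_eq_mul_inv]; ring
  have hf1 : BddBaireOne (g1 ∘ f) := hf.comp (lip_affine _ _).continuous
  have hr1 : ρ X (g1 ∘ f) ≤ Ordinal.omega0 ^ η :=
    hρ.p4 X f hf g1 _ (lip_affine _ _) η h1 hη hle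
  set g2 : ℝ → ℝ := fun t => max 0 (min 1 t) with hg2
  have hf2 : BddBaireOne (g2 ∘ (g1 ∘ f)) := hf1.comp lip_clip.continuous
  have hr2 : ρ X (g2 ∘ (g1 ∘ f)) ≤ Ordinal.omega0 ^ η :=
    hρ.p4 X _ hf1 g2 _ lip_clip η h1 hη hr1
  have hPG : IsGδ P := hP1.isGδ
  have hPcG : IsGδ Pᶜ := hP1.isOpen_compl.isGδ
  have hfP : BddBaireOne (P.indicator fun _ => (1 : ℝ)) := bdd_indicator hPG hPcG
  have hrP : ρ X (P.indicator fun _ => 1) ≤ Ordinal.omega0 ^ η :=
    (hρ.p1 X P hPG hPcG).1 η h1 hη ((sepRank_closed hP1).trans (three_le h1))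
  have hf3 := hf2.add hfP
  have hr3 : ρ X (fun x => (g2 ∘ (g1 ∘ f)) x + P.indicator (fun _ => 1) x) ≤ Ordinal.omega0 ^ η :=
    hρ.p2_add X _ _ hf2 hfP η h1 hη (max_le hr2 hrP)
  have hlip : LipschitzWith 1 fun t : ℝ => max 0 (t - 1) := by
    have := (LipschitzWith.id (α := ℝ)).sub (LipschitzWith.const (α := ℝ) (1 : ℝ))
    simpa using this.const_max 0
  have hr4 := hρ.p4 X _ hf3 (fun t => max 0 (t - 1)) 1 hlip η h1 hη hr3
  have heq : (fun t : ℝ => max 0 (t - 1)) ∘ (fun x => (g2 ∘ (g1 ∘ f)) x + P.indicator (fun _ => 1) x) =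
      A.indicator fun _ => (1 : ℝ) := by
    funext y
    simp only [Function.comp, hg2, hg1v]
    by_cases hyP : y ∈ P
    · rw [indicator_of_mem hyP]
      rcases hP2 hyP with hyB | hyC
      · have hyA : y ∈ A := ⟨hyB, hyP⟩
        rw [indicator_of_mem hyA]
        have h5 : f y ≤ p' := hyB
        have h6 : 1 ≤ (q' - f y) / (q' - p') := by
          rw [le_div_iff₀ hd]; linarith
        rw [min_eq_left h6]
        norm_num
      · have hyA : y ∉ A := fun h => hdisj y h.1 hyC
        rw [indicator_of_notMem hyA]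
        have h5 : q' ≤ f y := hyC
        have h6 : (q' - f y) / (q' - p') ≤ 0 := div_nonpos_of_nonpos_of_nonneg (by linarith) hd.le
        rw [min_eq_right (h6.trans zero_le_one), max_eq_left h6]
        norm_num
    · have hyA : y ∉ A := fun h => hyP h.2
      rw [indicator_of_notMem hyA, indicator_of_notMem hyP]
      apply max_eq_left
      have h5 : max 0 (min 1 ((q' - f y) / (q' - p'))) ≤ 1 := max_le zero_le_one (min_le_left _ _)
      linarith
  rw [heq] at hr4
  exact absurd ((hρ.p1 X A hA hAc).2 η h1 hη hr4) (not_le.2 hlt')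

/-- constants -/
theorem rank_const (hρ : IsRank ρ) (X : Type) [TopologicalSpace X] [PolishSpace X] (c : ℝ)
    {η : Ordinal.{0}} (h1 : 1 ≤ η) (hη : η < Ordinal.omega 1) :
    ρ X (fun _ => c) ≤ Ordinal.omega0 ^ η := by
  have hG : IsGδ (univ : Set X) := IsGδ.univ
  have hGc : IsGδ (univ : Set X)ᶜ := by rw [compl_univ]; exact IsGδ.empty
  have h2 : ρ X ((univ : Set X).indicator fun _ => 1) ≤ Ordinal.omega0 ^ η :=
    (hρ.p1 X univ hG hGc).1 η h1 hη ((sepRank_closed isClosed_univ).trans (three_le h1))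
  have h3 := hρ.p4 X _ (bdd_indicator hG hGc) (fun _ => c) 0 (LipschitzWith.const c) η h1 hη h2
  exact h3

theorem bdd_const (X : Type) [TopologicalSpace X] (c : ℝ) : BddBaireOne (fun _ : X => c) := by
  refine ⟨⟨|c|, fun _ => le_rfl⟩, fun K _ => ?_⟩
  by_cases hc : c ∈ K
  · rw [preimage_const_of_mem hc]; exact IsGδ.univ
  · rw [preimage_const_of_notMem hc]; exact IsGδ.empty

/-- the upper bound -/
theorem upper (hρ : IsRank ρ) (X : Type) [TopologicalSpace X] [PolishSpace X] (f : X → ℝ)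
    (hf : BddBaireOne f) : Below (ρ X f) (fnRank f) := by
  intro η h1 hη hle
  have happ : ∀ n : ℕ, ∃ s : X → ℝ, BddBaireOne s ∧ ρ X s ≤ Ordinal.omega0 ^ η ∧
      ∀ x, |s x - f x| ≤ 1 / ((n : ℝ) + 1) := by
    intro n
    obtain ⟨M0, hM0⟩ := hf.bdd
    obtain ⟨M, hM⟩ := exists_nat_ge M0
    have hfM : ∀ x, |f x| ≤ (M : ℝ) := fun x => (hM0 x).trans hM
    set h : ℚ := 1 / ((n : ℚ) + 1) with hh
    have hhpos : 0 < h := by rw [hh]; positivity
    have hhcast : (h : ℝ) = 1 / ((n : ℝ) + 1) := by rw [hh]; push_cast; rfl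
    have hhposR : (0 : ℝ) < (h : ℝ) := by exact_mod_cast hhpos
    set t : ℕ → ℚ := fun i => -(M : ℚ) + i * h with ht
    have htR : ∀ i, ((t i : ℚ) : ℝ) = -(M : ℝ) + i * (h : ℝ) := fun i => by
      rw [ht]; push_cast; rfl
    have htlt : ∀ i, t i < t (i + 1) := fun i => by
      rw [ht]
      push_cast
      linarith
    have hsep : ∀ i : ℕ, ∃ H : Set X, IsGδ H ∧ IsGδ Hᶜ ∧ {x | f x ≤ (t i : ℝ)} ⊆ H ∧
        (∀ x ∈ H, ¬ ((t (i + 1) : ℝ) ≤ f x)) ∧ sepRank H Hᶜ ≤ Ordinal.omega0 ^ η := by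
      intro i
      have hle' : sepRank {x | f x ≤ (t i : ℝ)} {x | (t (i + 1) : ℝ) ≤ f x} ≤ Ordinal.omega0 ^ η := by
        refine le_trans ?_ hle
        exact Ordinal.le_iSup
          (fun pq : {pq : ℚ × ℚ // pq.1 < pq.2} =>
            sepRank {x | f x ≤ (pq.1.1 : ℝ)} {x | (pq.1.2 : ℝ) ≤ f x}) ⟨(t i, t (i + 1)), htlt i⟩
      have hex : ∃ lam, E {x | f x ≤ (t i : ℝ)} {x | (t (i + 1) : ℝ) ≤ f x} lam = ∅ := by
        apply exists_empty (hf.baire (Iic (t i : ℝ)) isClosed_Iic) (hf.baire (Ici (t (i + 1) : ℝ)) isClosed_Ici)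
        rw [Set.disjoint_left]
        intro y hy1 hy2
        have h3 : f y ≤ (t i : ℝ) := hy1
        have h4 : (t (i + 1) : ℝ) ≤ f y := hy2
        have h5 : ((t i : ℚ) : ℝ) < ((t (i + 1) : ℚ) : ℝ) := by exact_mod_cast htlt i
        linarith
      obtain ⟨F, hF, hB, hC⟩ := exists_seq_of_le hex hle'
      have hcount := countable_Iio (opow_lt hη)
      refine ⟨transDiff _ F, isGδ_transDiff hcount hF, isGδ_transDiff_compl hcount hF, hB, ?_,
        transDiff_sepRank hF⟩
      intro x hx hx'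
      have : x ∈ transDiff (Ordinal.omega0 ^ η) F ∩ {x | (t (i + 1) : ℝ) ≤ f x} := ⟨hx, hx'⟩
      rw [hC] at this
      exact this
    choose H hH1 hH2 hH3 hH4 hH5 using hsep
    -- the partial sums
    set S : ℕ → X → ℝ := fun k x => -(M : ℝ) + ∑ i ∈ Finset.range k,
      ((-(h : ℝ)) * (H i).indicator (fun _ => (1 : ℝ)) x + h) with hS
    have hS0 : S 0 = fun _ => -(M : ℝ) := by
      funext x; simp [hS]
    have hSs : ∀ k, S (k + 1) = fun x => S k x +
        ((fun u : ℝ => (-(h : ℝ)) * u + h) ∘ (H k).indicator (fun _ => (1 : ℝ))) x := by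
      intro k
      funext x
      simp only [hS, Finset.sum_range_succ, Function.comp]
      ring
    have hSk : ∀ k, BddBaireOne (S k) ∧ ρ X (S k) ≤ Ordinal.omega0 ^ η := by
      intro k
      induction k with
      | zero => rw [hS0]; exact ⟨bdd_const X _, rank_const hρ X _ h1 hη⟩
      | succ k ih =>
        have hb := bdd_indicator (hH1 k) (hH2 k)
        have hb' := hb.comp (lip_affine (-(h : ℝ)) (h : ℝ)).continuous
        have hr := (hρ.p1 X (H k) (hH1 k) (hH2 k)).1 η h1 hη (hH5 k)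
        have hr' := hρ.p4 X _ hb _ _ (lip_affine (-(h : ℝ)) (h : ℝ)) η h1 hη hr
        rw [hSs]
        exact ⟨ih.1.add hb', hρ.p2_add X _ _ ih.1 hb' η h1 hη (max_le ih.2 hr')⟩
    have hval : ∀ k x, ((t k : ℝ) ≤ f x → S k x = t k) ∧ (f x ≤ (t k : ℝ) → |S k x - f x| ≤ h) := by
      intro k x
      induction k with
      | zero =>
        rw [hS0, htR]
        simp only [Nat.cast_zero, zero_mul, add_zero]
        refine ⟨fun _ => trivial, fun h3 => ?_⟩
        have h4 := (abs_le.1 (hfM x)).1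
        have h5 : f x = -(M : ℝ) := le_antisymm h3 h4
        rw [h5]
        simpa using hhposR.le
      | succ k ih =>
        have hstep : ((t (k + 1) : ℚ) : ℝ) = t k + h := by
          rw [htR, htR]; push_cast; ring
        have hSk1 : S (k + 1) x = S k x + ((-(h : ℝ)) * (H k).indicator (fun _ => (1 : ℝ)) x + h) := by
          rw [hSs]; rfl
        refine ⟨fun h3 => ?_, fun h3 => ?_⟩
        · have h4 : (t k : ℝ) ≤ f x := by rw [hstep] at h3; linarith
          have hxH : x ∉ H k := fun hx => hH4 k x hx h3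
          rw [hSk1, ih.1 h4, indicator_of_notMem hxH, hstep]
          ring
        · rcases le_total (f x) (t k : ℝ) with h4 | h4
          · have hxH : x ∈ H k := hH3 k h4
            rw [hSk1, indicator_of_mem hxH]
            have h5 := ih.2 h4
            have h6 : S k x + (-(h : ℝ) * 1 + h) - f x = S k x - f x := by ring
            rw [h6]
            exact h5
          · rw [hSk1, ih.1 h4]
            rw [hstep] at h3
            by_cases hxH : x ∈ H k
            · rw [indicator_of_mem hxH, abs_le]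
              constructor <;> linarith
            · rw [indicator_of_notMem hxH, abs_le]
              constructor <;> linarith
    set N : ℕ := 2 * M * (n + 1) with hN
    have hNt : ((t N : ℚ) : ℝ) = M := by
      rw [htR, hhcast, hN]
      push_cast
      field_simp
      ring
    refine ⟨S N, (hSk N).1, (hSk N).2, fun x => ?_⟩
    rw [← hhcast]
    apply (hval N x).2
    rw [hNt]
    exact (abs_le.1 (hfM x)).2
  choose s hs1 hs2 hs3 using happ
  have hunif : TendstoUniformly s f atTop := by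
    rw [Metric.tendstoUniformly_iff]
    intro ε hε
    have h0 := tendsto_one_div_add_atTop_nhds_zero_nat (𝕜 := ℝ)
    filter_upwards [h0.eventually (gt_mem_nhds hε)] with n hn x
    rw [dist_comm, Real.dist_eq]
    exact (hs3 n x).trans_lt hn
  exact hρ.p3 X f s hf hs1 hunif η h1 hη (Ordinal.iSup_le hs2)

/-- Every rank with the properties (P1)-(P4) satisfies `ρ(f) ≈ α₁(f)` for every bounded function `f` of Baire class 1
on every Polish space `X`. -/
theorem result (ρ : ∀ (X : Type) [TopologicalSpace X], (X → ℝ) → Ordinal.{0}) (hρ : IsRank ρ)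
    (X : Type) [TopologicalSpace X] [PolishSpace X] (f : X → ℝ) (hf : BddBaireOne f) :
    Similar (ρ X f) (fnRank f) :=
  ⟨upper hρ X f hf, lower hρ X f hf⟩

end Pool.Agent.Results.MP_12cd8a_lc.Unique
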